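import Pool.Agent.H549.FS.Tri4

/-!
# Three given multiples of a number, all congruent

Let `k₁ x² + k₂ y² = k₃ z²` be solvable in positive integers (the sign pattern is no restriction,
as `n` and `-n` have the same curve). For at least `c X ^ (1/6)` squarefree integers `m ≤ X` the three
numbers `k₁ m`, `k₂ m`, `k₃ m` are all congruent.

Proof. With `x = a σ²`, `y = -b τ²`, `x - y = (a + b) ρ²` and
`M = 3 (2 x - y) (x - 2 y) (x + y)`, the numbers `a M`, `b M`, `(a + b) M` are, up to squares, areas of
rational right triangles, given by the pairs `(2 x - y, x + y)`, `(x - 2 y, x + y)`,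
`(2 x - y, x - 2 y)`. The conic `a σ² + b τ² = (a + b) ρ²` is parametrised by binary quadratic
forms, so `M` becomes three times a product of three binary quartic forms, without a double factor.
By Greaves' method for factors of degree at most four, the product is, up to a fixed divisor,
squarefree in a positive proportion of a class of pairs; a squarefree value with large rough part
is taken boundedly often.
-/

theorem Pool.Agent.Results.MP_05dcdc_nt.ThreeMultiples.result
    (k₁ k₂ k₃ : ℕ) (h₁ : 0 < k₁) (h₂ : 0 < k₂)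
    (h : ∃ x y z : ℕ, 0 < x ∧ 0 < y ∧ 0 < z ∧ k₁ * x ^ 2 + k₂ * y ^ 2 = k₃ * z ^ 2) :
    ∃ c : ℝ, 0 < c ∧ ∃ X₀ : ℝ, ∀ X : ℝ, X₀ ≤ X →
      c * X ^ (1 / 6 : ℝ) ≤ (Set.ncard {m : ℕ | (m : ℝ) ≤ X ∧ Squarefree m ∧
        Pool.Agent.H549.FS.IsCongruent (k₁ * m) ∧
        Pool.Agent.H549.FS.IsCongruent (k₂ * m) ∧
        Pool.Agent.H549.FS.IsCongruent (k₃ * m)} : ℝ) := by
  obtain ⟨x, y, z, hx, hy, hz, h⟩ := h
  exact Pool.Agent.H549.FS.triples h₁ h₂ hx hy hz h
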