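import Pool.Agent.H549.FS.PairFinal

/-!
# Two given multiples of a number, both squarefree congruent numbers

Let `k₁`, `k₂` be coprime squarefree positive integers. For at least `c X ^ (1/3)` integers
`m ≤ X` of every odd class modulo `8` both `k₁ m` and `k₂ m` are squarefree congruent numbers (and
`m` is prime to `k₁ k₂`). For odd `k₁`, `k₂` these are odd squarefree congruent numbers in
prescribed classes modulo `8`, for example in the classes `1`, `3`, where the hypothesis
`2 |A_n| = |B_n|` is a real condition. For `k₁ = 1` the numbers are `n` and `k n`.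

Proof. If `x > y > 0` or `x > 0 > y`, and `M = 3 (x + y) (2 x - y) (x - 2 y) > 0`, then `x M` and
`|y| M` are (up to squares) areas of rational right triangles, given by the pairs
`(2 x - y, x + y)` and `(x - 2 y, x + y)`. Take `x = a v²`, `y = ± b u²`, `a`, `b` equal to `k₁`, `k₂`
up to factors `3`. The product of the three binary quadratic forms is (up to a fixed square) squarefree
in a positive proportion of a class of pairs `(u, v)`; the signs and the class at `2` are chosen
according to `k₁`, `k₂` modulo `8` and the class of `m`. A squarefree value with large rough part is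
taken boundedly often.
-/

theorem Pool.Agent.Results.MP_05dcdc_nt.TwoMultiples.result
    (k₁ k₂ : ℕ) (h₁ : Squarefree k₁) (h₂ : Squarefree k₂) (h : Nat.Coprime k₁ k₂)
    (r : ℕ) (hr : Odd r) :
    ∃ c : ℝ, 0 < c ∧ ∃ X₀ : ℝ, ∀ X : ℝ, X₀ ≤ X →
      c * X ^ (1 / 3 : ℝ) ≤ (Set.ncard {m : ℕ | (m : ℝ) ≤ X ∧ m ≡ r [MOD 8] ∧
        Squarefree (k₁ * m) ∧ Squarefree (k₂ * m) ∧ Nat.Coprime m (k₁ * k₂) ∧
        Pool.Agent.H549.FS.IsCongruent (k₁ * m) ∧
        Pool.Agent.H549.FS.IsCongruent (k₂ * m)} : ℝ) :=
  Pool.Agent.H549.FS.pairs_odd h₁ h₂ h hr
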